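import Pool.Agent.Helper53.PF.St

/-!
# Project PF, module DIA: the first descent step (divide by the prime `Z^3 - n`)
-/

namespace PF.Helper40

open Polynomial

lemma ev_CC {k : Type} [Field k] (v y : k[X]) (a : k) : ev v y (C (C a)) = C a := by
  simp [ev]

lemma ev_CX {k : Type} [Field k] (v y : k[X]) : ev v y (C X) = v := by
  simp [ev]

lemma ev_X {k : Type} [Field k] (v y : k[X]) : ev v y X = y := by
  simp [ev]

lemma three_quarters {k : Type} [Field k] [CharZero k] : (4 : k) * (3 / 4) = 3 := by norm_num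

/-- the algebraic identity of one step -/
lemma N1_step {k : Type} [Field k] [CharZero k] {κ n : k} (hκ : 3 * κ ^ 2 + 1 = 0)
    {p q h : k[X][X]} (hp : p + C (C κ) * q = (X ^ 3 - C (C n)) * h) :
    3 * C X * N1 n p q = 4 * (X ^ 3 - C (C n)) *
      N1 n (q - C (C (3 / 4)) * C (C κ) * C X * h) (-(C (C (3 / 4)) * C X * h)) := by
  have h1 : (3 : k[X][X]) * C (C κ) ^ 2 + 1 = 0 := by
    have := congrArg (C.comp C : k →+* k[X][X]) hκ
    simpa only [map_add, map_mul, map_pow, map_ofNat, map_one, map_zero, RingHom.comp_apply]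
      using this
  have h2 : (4 : k[X][X]) * C (C (3 / 4)) = 3 := by
    have := congrArg (C.comp C : k →+* k[X][X]) (three_quarters (k := k))
    simpa only [map_add, map_mul, map_pow, map_ofNat, map_one, map_zero, RingHom.comp_apply]
      using this
  have hp' : p = (X ^ 3 - C (C n)) * h - C (C κ) * q := by
    rw [← hp]; ring
  subst hp'
  unfold N1
  generalize (C (C κ) : k[X][X]) = K at *
  generalize (C (C (3 / 4)) : k[X][X]) = T at *
  generalize (C (C n) : k[X][X]) = N at *
  generalize (C X : k[X][X]) = V at *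
  generalize hπ : X ^ 3 - N = π at *
  have hN : N = X ^ 3 - π := by rw [← hπ]; ring
  subst hN
  linear_combination (3 * V ^ 2 * q ^ 2 - 4 * π * T ^ 2 * V ^ 3 * h ^ 2) * h1 +
    (-(4 * T + 3) * π ^ 2 * V ^ 2 * h ^ 2 + 6 * π * K * V ^ 2 * h * q) * h2

/-- the vanishing condition of one step -/
lemma van_step {k : Type} [Field k] [CharZero k] {κ n : k} (hκ : 3 * κ ^ 2 + 1 = 0)
    {s z w : k[X]} (hc : Crv n s z w)
    {p q h : k[X][X]} (hp : p + C (C κ) * q = (X ^ 3 - C (C n)) * h)
    (hv : ev (s ^ 3) z p * s + ev (s ^ 3) z q * w = 0) :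
    ev (s ^ 3) z (q - C (C (3 / 4)) * C (C κ) * C X * h) * s +
      ev (s ^ 3) z (-(C (C (3 / 4)) * C X * h)) * w = 0 := by
  have hne : 4 * (w - C κ * s) ≠ 0 := by
    intro h0
    have h0' : w - C κ * s = 0 := by
      refine (mul_eq_zero.1 h0).resolve_left ?_
      have : (C (4 : k) : k[X]) ≠ 0 := by
        rw [Ne, C_eq_zero]; norm_num
      simpa only [map_ofNat] using this
    have h1 : w = C κ * s := by linear_combination h0'
    have h2 := hc.dw
    rw [h1] at h2
    have h3 := natDegree_C_mul_le κ s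
    rw [h2, hc.ds] at h3
    omega
  have hp' := congrArg (ev (s ^ 3) z) hp
  simp only [map_add, map_mul, map_sub, map_pow, map_neg, ev_CC, ev_CX, ev_X] at hp' ⊢
  have h1 : (3 : k[X]) * C κ ^ 2 + 1 = 0 := by
    have := congrArg (C : k →+* k[X]) hκ
    simpa only [map_add, map_mul, map_pow, map_ofNat, map_one, map_zero] using this
  have h2 : (4 : k[X]) * C (3 / 4) = 3 := by
    have := congrArg (C : k →+* k[X]) (three_quarters (k := k))
    simpa only [map_add, map_mul, map_pow, map_ofNat, map_one, map_zero] using this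
  have heq := hc.eq
  have h3 : (C (4 * n) : k[X]) = 4 * C n := by
    simp only [map_mul, map_ofNat]
  rw [h3] at heq
  refine (mul_eq_zero.1 ?_).resolve_left hne
  generalize (C κ : k[X]) = K at *
  generalize (C (3 / 4) : k[X]) = T at *
  generalize (C n : k[X]) = N at *
  generalize ev (s ^ 3) z p = P at *
  generalize ev (s ^ 3) z q = Q at *
  generalize ev (s ^ 3) z h = H at *
  linear_combination 4 * s * hv - 4 * s ^ 2 * hp' - s ^ 2 * H * heq -
    s ^ 2 * H * (s * w ^ 2 - K ^ 2 * s ^ 3) * h2 + s ^ 5 * H * h1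

/-- `Z^3 - n` does not divide a nonzero element of Z-degree 0. -/
lemma not_dvd_C {k : Type} [Field k] (n : k) {a : k[X]} (ha : a ≠ 0) :
    ¬ (X ^ 3 - C (C n) : k[X][X]) ∣ C a := by
  intro h
  have h1 : (C a : k[X][X]) ≠ 0 := by rwa [Ne, C_eq_zero]
  have h2 := natDegree_le_of_dvd h h1
  rw [natDegree_X_pow_sub_C, natDegree_C] at h2
  omega

/-- one step of the descent -/
lemma step {k : Type} [Field k] [CharZero k] {κ n : k} (hκ : 3 * κ ^ 2 + 1 = 0)
    (hpr : Prime (X ^ 3 - C (C n) : k[X][X])) {s z w : k[X]} (hc : Crv n s z w)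
    {i : ℕ} {p q C₁ : k[X][X]} {c : k[X]} (hc0 : c ≠ 0)
    (hN : N1 n p q = C c * (X ^ 3 - C (C n)) ^ (i + 1) * C₁)
    (hv : ev (s ^ 3) z p * s + ev (s ^ 3) z q * w = 0) :
    ∃ (p' q' : k[X][X]) (c' : k[X]), c' ≠ 0 ∧
      N1 n p' q' = C c' * (X ^ 3 - C (C n)) ^ i * C₁ ∧
      ev (s ^ 3) z p' * s + ev (s ^ 3) z q' * w = 0 := by
  -- it is enough to find a square root of `-1/3` for which the divisibility holds
  suffices hmain : ∃ μ : k, 3 * μ ^ 2 + 1 = 0 ∧
      (X ^ 3 - C (C n) : k[X][X]) ∣ p + C (C μ) * q by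
    obtain ⟨μ, hμ, h, hh⟩ := hmain
    refine ⟨_, _, C (3 / 4) * X * c, ?_, ?_, van_step hμ hc hh hv⟩
    · refine mul_ne_zero (mul_ne_zero ?_ X_ne_zero) hc0
      rw [Ne, C_eq_zero]; norm_num
    · have h4 : (4 : k[X][X]) * (X ^ 3 - C (C n)) ≠ 0 := by
        refine mul_ne_zero ?_ hpr.ne_zero
        have : (C (C (4 : k)) : k[X][X]) ≠ 0 := by
          rw [Ne, C_eq_zero, C_eq_zero]; norm_num
        simpa only [map_ofNat] using this
      have h2 : (4 : k[X][X]) * C (C (3 / 4)) = 3 := by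
        have := congrArg (C.comp C : k →+* k[X][X]) (three_quarters (k := k))
        simpa only [map_add, map_mul, map_pow, map_ofNat, map_one, map_zero, RingHom.comp_apply]
          using this
      apply mul_left_cancel₀ h4
      rw [← N1_step hμ hh, hN]
      simp only [map_mul]
      linear_combination (-(C X * C c * (X ^ 3 - C (C n)) ^ (i + 1) * C₁)) * h2
  have h1 : (3 : k[X][X]) * C (C κ) ^ 2 + 1 = 0 := by
    have := congrArg (C.comp C : k →+* k[X][X]) hκ
    simpa only [map_add, map_mul, map_pow, map_ofNat, map_one, map_zero, RingHom.comp_apply]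
      using this
  have hdvd : (X ^ 3 - C (C n) : k[X][X]) ∣
      C (3 * X) * ((p + C (C κ) * q) * (p + C (C (-κ)) * q)) := by
    refine ⟨C c * (X ^ 3 - C (C n)) ^ i * C₁ - 4 * q ^ 2, ?_⟩
    have h5 : (X ^ 3 - C (C n)) * (C c * (X ^ 3 - C (C n)) ^ i * C₁ - 4 * q ^ 2) =
        N1 n p q - 4 * (X ^ 3 - C (C n)) * q ^ 2 := by
      rw [hN]; ring
    rw [h5]
    unfold N1
    simp only [map_mul, map_neg, map_ofNat]
    linear_combination (-(C X * q ^ 2)) * h1
  rcases hpr.dvd_or_dvd hdvd with h | h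
  · exact absurd h (not_dvd_C n (mul_ne_zero (by
      have : (C (3 : k) : k[X]) ≠ 0 := by
        rw [Ne, C_eq_zero]; norm_num
      simpa only [map_ofNat] using this) X_ne_zero))
  · rcases hpr.dvd_or_dvd h with h | h
    · exact ⟨κ, hκ, h⟩
    · exact ⟨-κ, by rw [neg_sq]; exact hκ, h⟩

/-- MODULE DIA. -/
theorem holds_DIA : PF.StDIA := by
  intro k _ _ κ n hκ hpr s z w hc i
  induction i with
  | zero =>
    intro p q C₁ c hc0 hN hv
    exact ⟨p, q, c, hc0, by rw [hN, pow_zero, mul_one], hv⟩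
  | succ i ih =>
    intro p q C₁ c hc0 hN hv
    obtain ⟨p', q', c', hc', hN', hv'⟩ := step hκ hpr hc hc0 hN hv
    exact ih p' q' C₁ c' hc' hN' hv'

end PF.Helper40
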